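import Pool.Agent.Helper11.W4.Span

/-!
Rational combinations of products of pull-backs of the polarisation and of Grothendieck Weil
classes are Grothendieck classes.
-/

namespace Pool.Agent.Helper11.W4

open Module Pool.Agent.Helper7 Pool.Agent.GPC

/-- D2: combinations of products are Grothendieck classes -/
theorem isGrothendieck_of_isDivWeilPow (A : AbVar) (n : ℕ) (J : A.H1 → A.H1) (k : ℕ)
    (α : Form (fun _ : Unit => A) (fun _ => n) (2 * k)) (h : IsDivWeilPow A n J k α) :
    IsGrothendieck (fun _ : Unit => A) (fun _ => n) k α := by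
  obtain ⟨N, c, p, q, ε, h, g, w, hh, hg, hw, hα⟩ := h
  refine ⟨fun v hv => ?_, fun v hv => ?_⟩
  · rw [hα]
    refine isAlg_sum _ _ fun j _ => (isAlgebraic_ratCast ℚ _).mul ?_
    refine isAlg_sum _ _ fun π _ => ?_
    refine IsAlgebraic.mul (isAlgebraic_intCast _) (IsAlgebraic.mul ?_ ?_)
    · refine isAlg_prod _ _ fun a _ => ?_
      exact polForm_alg A _ _ ((hh j a).deRham _ (hv _)) ((hh j a).deRham _ (hv _))
    · refine isAlg_prod _ _ fun a _ => ?_
      exact (hw j a).2.2 _ fun r => (hg j a).deRham _ (hv _)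
  · have hb1 : ∀ (j : Fin N) (π : Equiv.Perm (Idx (Fin (p j)) (Fin (q j)))) (a : Fin (p j)),
        ∃ t : ℚ, A.pol (h j a (v (ε j (π (.inl (a, 0)))))) (h j a (v (ε j (π (.inl (a, 1)))))) =
          2 * Real.pi * Complex.I * t := by
      intro j π a
      exact polForm_rat A _ _ ((isBetti_iff _ _).mp ((hh j a).betti _ (hv _)))
        ((isBetti_iff _ _).mp ((hh j a).betti _ (hv _)))
    have hD1 : ∀ (j : Fin N) (π : Equiv.Perm (Idx (Fin (p j)) (Fin (q j)))) (a : Fin (q j)),
        ∃ t : ℚ, w j a (fun r => g j a (v (ε j (π (.inr (a, r)))))) =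
          (2 * Real.pi * Complex.I) ^ 2 * t := by
      intro j π a
      exact (hw j a).2.1 _ fun r => (hg j a).betti _ (hv _)
    choose x hx using hb1
    choose y hy using hD1
    refine ⟨∑ j, c j * ∑ π : Equiv.Perm (Idx (Fin (p j)) (Fin (q j))),
      ((Equiv.Perm.sign π : ℤ) : ℚ) * ((∏ a, x j π a) * ∏ a, y j π a), ?_⟩
    rw [hα]
    push_cast
    rw [Finset.mul_sum]
    refine Finset.sum_congr rfl fun j _ => ?_
    rw [mul_left_comm]
    congr 1
    rw [Finset.mul_sum]
    unfold mixedProd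
    refine Finset.sum_congr rfl fun π _ => ?_
    have hz : ∀ (m : ℕ) (z : ℂ) (x : Fin m → ℂ), ∏ a, z * x a = z ^ m * ∏ a, x a := by
      intro m z x
      rw [Finset.prod_mul_distrib, Finset.prod_const, Finset.card_univ, Fintype.card_fin]
    rw [Finset.prod_congr rfl fun a _ => hx j π a, Finset.prod_congr rfl fun a _ => hy j π a,
      hz, hz]
    have h4 : (2 * Real.pi * Complex.I : ℂ) ^ k =
        (2 * Real.pi * Complex.I) ^ (p j) * ((2 * Real.pi * Complex.I) ^ 2) ^ (q j) := by
      rw [← pow_mul, ← pow_add, card_slots (ε j)]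
    rw [h4]
    ring

end Pool.Agent.Helper11.W4
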