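import Pool.Agent.Helper7.W4.Defs
import Pool.Agent.Helper28.AF.SpanC

/-!
Alternating products of bilinear forms and of forms of degree four.
-/

namespace Pool.Agent.Helper11.W4

open Module Pool.Agent.Helper7 Pool.Agent.GPC

section generic

/-- replacement of the arguments of a multilinear expression by elements of a spanning set -/
lemma span_multi {P V E : Type*} [Fintype P] [DecidableEq P] [AddCommGroup V] [Module ℂ V]
    [AddCommGroup E] [Module ℂ E] (Θ : (P → V) → E)
    (hadd : ∀ f a x y, Θ (Function.update f a (x + y)) =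
      Θ (Function.update f a x) + Θ (Function.update f a y))
    (hsmul : ∀ f a (c : ℂ) x, Θ (Function.update f a (c • x)) = c • Θ (Function.update f a x))
    (τ : V → V) (c₀ : ℂ) (hc : c₀ ≠ 0)
    (hτ : ∀ f a, Θ (Function.update f a (τ (f a))) = c₀ • Θ f)
    (G : Set V) (β : P → V) (hβ : ∀ a, τ (β a) ∈ Submodule.span ℂ G) :
    Θ β ∈ Submodule.span ℂ {ω | ∃ γ : P → V, (∀ a, γ a ∈ G) ∧ ω = Θ γ} := by
  classical
  suffices H : ∀ s : Finset P, ∀ β : P → V, (∀ a ∈ s, τ (β a) ∈ Submodule.span ℂ G) →
      (∀ a, a ∉ s → β a ∈ G) →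
      Θ β ∈ Submodule.span ℂ {ω | ∃ γ : P → V, (∀ a, γ a ∈ G) ∧ ω = Θ γ} from
    H Finset.univ β (fun a _ => hβ a) (fun a ha => absurd (Finset.mem_univ a) ha)
  intro s
  induction s using Finset.induction_on with
  | empty =>
    intro β _ h2
    exact Submodule.subset_span ⟨β, fun a => h2 a (Finset.notMem_empty a), rfl⟩
  | insert a s ha ih =>
    intro β h1 h2
    have h4 : Θ (Function.update β a (τ (β a))) ∈
        Submodule.span ℂ {ω | ∃ γ : P → V, (∀ a, γ a ∈ G) ∧ ω = Θ γ} := by
      refine Submodule.span_induction (p := fun x _ => Θ (Function.update β a x) ∈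
        Submodule.span ℂ {ω | ∃ γ : P → V, (∀ a, γ a ∈ G) ∧ ω = Θ γ}) ?_ ?_ ?_ ?_
        (h1 a (Finset.mem_insert_self a s))
      · intro x hx
        apply ih
        · intro b hb
          have hba : b ≠ a := fun h => ha (h ▸ hb)
          rw [Function.update_of_ne hba]
          exact h1 b (Finset.mem_insert_of_mem hb)
        · intro b hb
          by_cases hba : b = a
          · subst hba; rw [Function.update_self]; exact hx
          · rw [Function.update_of_ne hba]
            exact h2 b (fun h => (Finset.mem_insert.mp h).elim hba hb)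
      · have : Θ (Function.update β a 0) = 0 := by
          have := hsmul β a 0 0
          rw [zero_smul, zero_smul] at this
          exact this
        rw [this]; exact Submodule.zero_mem _
      · intro x y _ _ hx hy
        rw [hadd]; exact Submodule.add_mem _ hx hy
      · intro c x _ hx
        rw [hsmul]; exact Submodule.smul_mem _ _ hx
    rw [hτ] at h4
    have h5 := Submodule.smul_mem _ (c₀⁻¹) h4
    rw [smul_smul, inv_mul_cancel₀ hc, one_smul] at h5
    exact h5

/-- polarisation -/
lemma polar {V : Type*} [AddCommGroup V] [Module ℂ V] {m : ℕ}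
    (w : MultilinearMap ℂ (fun _ : Fin m => V) ℂ) (y : Fin m → Fin m → V) :
    ∑ σ : Equiv.Perm (Fin m), w (fun i => y i (σ i)) =
      ∑ C : Finset (Fin m), (-1 : ℂ) ^ C.card * w (fun i => ∑ j ∈ Cᶜ, y i j) := by
  classical
  have h1 : ∀ C : Finset (Fin m), w (fun i => ∑ j ∈ Cᶜ, y i j) =
      ∑ f : Fin m → Fin m, if C ⊆ (Finset.univ.image f)ᶜ then w (fun i => y i (f i)) else 0 := by
    intro C
    rw [MultilinearMap.map_sum_finset, ← Finset.sum_filter]
    refine Finset.sum_congr ?_ fun _ _ => rfl
    ext f
    rw [Fintype.mem_piFinset, Finset.mem_filter]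
    constructor
    · intro h
      refine ⟨Finset.mem_univ _, fun x hx => ?_⟩
      rw [Finset.mem_compl]
      intro hx'
      obtain ⟨i, -, hi⟩ := Finset.mem_image.mp hx'
      have := h i
      rw [Finset.mem_compl, hi] at this
      exact this hx
    · rintro ⟨-, h⟩ i
      rw [Finset.mem_compl]
      intro hi
      have := h hi
      rw [Finset.mem_compl] at this
      exact this (Finset.mem_image_of_mem f (Finset.mem_univ i))
  simp only [h1, Finset.mul_sum]
  rw [Finset.sum_comm]
  have h2 : ∀ f : Fin m → Fin m, ∑ C : Finset (Fin m), (-1 : ℂ) ^ C.card *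
      (if C ⊆ (Finset.univ.image f)ᶜ then w (fun i => y i (f i)) else 0) =
      if Function.Bijective f then w (fun i => y i (f i)) else 0 := by
    intro f
    have h3 : ∑ C : Finset (Fin m), (-1 : ℂ) ^ C.card *
      (if C ⊆ (Finset.univ.image f)ᶜ then w (fun i => y i (f i)) else 0) =
      (∑ C ∈ (Finset.univ.image f)ᶜ.powerset, (-1 : ℂ) ^ C.card) * w (fun i => y i (f i)) := by
      rw [Finset.sum_mul]
      simp only [mul_ite, mul_zero]
      rw [← Finset.sum_filter]
      refine Finset.sum_congr ?_ fun _ _ => rfl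
      ext C
      simp
    rw [h3]
    have h4 : (∑ C ∈ (Finset.univ.image f)ᶜ.powerset, (-1 : ℂ) ^ C.card) =
        if (Finset.univ.image f)ᶜ = ∅ then 1 else 0 := by
      have := Finset.sum_powerset_neg_one_pow_card (x := (Finset.univ.image f)ᶜ)
      have h5 := congrArg (fun z : ℤ => (z : ℂ)) this
      push_cast at h5
      rw [h5]
    rw [h4]
    have h6 : (Finset.univ.image f)ᶜ = ∅ ↔ Function.Bijective f := by
      rw [Finset.compl_eq_empty_iff, ← Finite.surjective_iff_bijective, Finset.eq_univ_iff_forall]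
      simp [Function.Surjective]
    by_cases h : Function.Bijective f
    · rw [if_pos (h6.mpr h), if_pos h, one_mul]
    · rw [if_neg (fun h' => h (h6.mp h')), if_neg h, zero_mul]
  simp only [h2]
  rw [← Finset.sum_filter]
  refine Finset.sum_bij (fun σ _ => ⇑σ) ?_ ?_ ?_ ?_
  · intro σ _
    exact Finset.mem_filter.mpr ⟨Finset.mem_univ _, σ.bijective⟩
  · intro σ _ σ' _ h
    exact Equiv.coe_fn_injective h
  · intro f hf
    exact ⟨Equiv.ofBijective f (Finset.mem_filter.mp hf).2, Finset.mem_univ _, rfl⟩
  · intro σ _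
    rfl

end generic

section mix

variable {W : Type*} [AddCommGroup W] [Module ℂ W] {P Q : Type} [Fintype P] [Fintype Q]
  [DecidableEq P] [DecidableEq Q]

/-- the slots of a product -/
abbrev Idx (P Q : Type) : Type := (P × Fin 2) ⊕ (Q × Fin 4)

/-- the factors of a product -/
noncomputable def fac (b : P → W →ₗ[ℂ] W →ₗ[ℂ] ℂ)
    (w : Q → MultilinearMap ℂ (fun _ : Fin 4 => W) ℂ) (z : P ⊕ Q) (u : Idx P Q → W) : ℂ :=
  match z with
  | .inl a => b a (u (.inl (a, 0))) (u (.inl (a, 1)))
  | .inr c => w c (fun j => u (.inr (c, j)))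

/-- the block of a slot -/
def blk : Idx P Q → P ⊕ Q := Sum.map Prod.fst Prod.fst

variable (b : P → W →ₗ[ℂ] W →ₗ[ℂ] ℂ) (w : Q → MultilinearMap ℂ (fun _ : Fin 4 => W) ℂ)

omit [Fintype P] [Fintype Q] in
lemma fac_ne (z : P ⊕ Q) (u : Idx P Q → W) (x : Idx P Q) (y : W) (h : blk x ≠ z) :
    fac b w z (Function.update u x y) = fac b w z u := by
  have h1 : ∀ x', blk x' = z → Function.update u x y x' = u x' := by
    intro x' hx'
    rw [Function.update_of_ne]
    rintro rfl
    exact h hx'
  rcases z with a | c
  · simp only [fac]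
    rw [h1 _ rfl, h1 _ rfl]
  · simp only [fac]
    congr 1
    funext j
    exact h1 _ rfl

omit [Fintype P] [Fintype Q] in
lemma fac_add (u : Idx P Q → W) (x : Idx P Q) (y y' : W) :
    fac b w (blk x) (Function.update u x (y + y')) =
      fac b w (blk x) (Function.update u x y) + fac b w (blk x) (Function.update u x y') := by
  rcases x with ⟨a, i⟩ | ⟨c, i⟩
  · show b a _ _ = b a _ _ + b a _ _
    fin_cases i
    · have h : ∀ z : W, Function.update u (Sum.inl (a, 0) : Idx P Q) z (Sum.inl (a, 1)) =
        u (Sum.inl (a, 1)) := fun z => Function.update_of_ne (by simp) _ _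
      simp only [Fin.zero_eta, Function.update_self, h, map_add, LinearMap.add_apply]
    · have h : ∀ z : W, Function.update u (Sum.inl (a, 1) : Idx P Q) z (Sum.inl (a, 0)) =
        u (Sum.inl (a, 0)) := fun z => Function.update_of_ne (by simp) _ _
      simp only [Fin.mk_one, Function.update_self, h, map_add]
  · show w c _ = w c _ + w c _
    have h : ∀ z : W, (fun j => Function.update u (Sum.inr (c, i) : Idx P Q) z (Sum.inr (c, j))) =
        Function.update (fun j => u (Sum.inr (c, j))) i z := by
      intro z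
      funext j
      by_cases hj : j = i
      · subst hj; simp
      · rw [Function.update_of_ne (by simpa using hj), Function.update_of_ne hj]
    rw [h, h, h, MultilinearMap.map_update_add]

omit [Fintype P] [Fintype Q] in
lemma fac_smul (u : Idx P Q → W) (x : Idx P Q) (t : ℂ) (y : W) :
    fac b w (blk x) (Function.update u x (t • y)) =
      t * fac b w (blk x) (Function.update u x y) := by
  rcases x with ⟨a, i⟩ | ⟨c, i⟩
  · show b a _ _ = t * b a _ _
    fin_cases i
    · have h : ∀ z : W, Function.update u (Sum.inl (a, 0) : Idx P Q) z (Sum.inl (a, 1)) =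
        u (Sum.inl (a, 1)) := fun z => Function.update_of_ne (by simp) _ _
      simp only [Fin.zero_eta, Function.update_self, h, map_smul, LinearMap.smul_apply,
        smul_eq_mul]
    · have h : ∀ z : W, Function.update u (Sum.inl (a, 1) : Idx P Q) z (Sum.inl (a, 0)) =
        u (Sum.inl (a, 0)) := fun z => Function.update_of_ne (by simp) _ _
      simp only [Fin.mk_one, Function.update_self, h, map_smul, smul_eq_mul]
  · show w c _ = t * w c _
    have h : ∀ z : W, (fun j => Function.update u (Sum.inr (c, i) : Idx P Q) z (Sum.inr (c, j))) =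
        Function.update (fun j => u (Sum.inr (c, j))) i z := by
      intro z
      funext j
      by_cases hj : j = i
      · subst hj; simp
      · rw [Function.update_of_ne (by simpa using hj), Function.update_of_ne hj]
    rw [h, h, MultilinearMap.map_update_smul, smul_eq_mul]

/-- the product of bilinear forms and forms of degree four -/
noncomputable def mixX : MultilinearMap ℂ (fun _ : Idx P Q => W) ℂ where
  toFun u := ∏ z, fac b w z u
  map_update_add' := by
    intro inst u x y y'
    have hinst : inst = (fun a b => instDecidableEqSum a b) := Subsingleton.elim _ _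
    subst hinst
    rw [Fintype.prod_eq_mul_prod_compl (blk x), Fintype.prod_eq_mul_prod_compl (blk x),
      Fintype.prod_eq_mul_prod_compl (blk x)]
    have h : ∀ t : W, ∏ z ∈ ({blk x} : Finset (P ⊕ Q))ᶜ, fac b w z (Function.update u x t) =
        ∏ z ∈ ({blk x} : Finset (P ⊕ Q))ᶜ, fac b w z u := by
      intro t
      refine Finset.prod_congr rfl fun z hz => ?_
      rw [Finset.mem_compl, Finset.mem_singleton] at hz
      exact fac_ne b w z u x t (fun h => hz h.symm)
    rw [h, h, h, fac_add, add_mul]
  map_update_smul' := by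
    intro inst u x t y
    have hinst : inst = (fun a b => instDecidableEqSum a b) := Subsingleton.elim _ _
    subst hinst
    rw [Fintype.prod_eq_mul_prod_compl (blk x), Fintype.prod_eq_mul_prod_compl (blk x)]
    have h : ∀ t : W, ∏ z ∈ ({blk x} : Finset (P ⊕ Q))ᶜ, fac b w z (Function.update u x t) =
        ∏ z ∈ ({blk x} : Finset (P ⊕ Q))ᶜ, fac b w z u := by
      intro t
      refine Finset.prod_congr rfl fun z hz => ?_
      rw [Finset.mem_compl, Finset.mem_singleton] at hz
      exact fac_ne b w z u x t (fun h => hz h.symm)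
    rw [h, h, fac_smul, smul_eq_mul, mul_assoc]

lemma mixX_apply (u : Idx P Q → W) : mixX b w u =
    (∏ a, b a (u (.inl (a, 0))) (u (.inl (a, 1)))) * ∏ c, w c (fun j => u (.inr (c, j))) := by
  show ∏ z, fac b w z u = _
  rw [Fintype.prod_sum_type]
  rfl

variable {N : ℕ} (ε : Idx P Q ≃ Fin N)

/-- the product on `Fin N` -/
noncomputable def mixM : MultilinearMap ℂ (fun _ : Fin N => W) ℂ := (mixX b w).domDomCongr ε

lemma mixM_apply (v : Fin N → W) : mixM b w ε v =
    (∏ a, b a (v (ε (.inl (a, 0)))) (v (ε (.inl (a, 1))))) *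
      ∏ c, w c (fun j => v (ε (.inr (c, j)))) := by
  rw [mixM, MultilinearMap.domDomCongr_apply, mixX_apply]

/-- the alternating product -/
noncomputable def mixA : W [⋀^Fin N]→ₗ[ℂ] ℂ := MultilinearMap.alternatization (mixM b w ε)

lemma mixA_apply (v : Fin N → W) : mixA b w ε v =
    ∑ π : Equiv.Perm (Idx P Q), ((Equiv.Perm.sign π : ℤ) : ℂ) *
      ((∏ a, b a (v (ε (π (.inl (a, 0))))) (v (ε (π (.inl (a, 1)))))) *
        ∏ c, w c (fun j => v (ε (π (.inr (c, j)))))) := by
  rw [mixA, MultilinearMap.alternatization_apply]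
  refine (Fintype.sum_equiv ε.permCongr _ _ fun π => ?_).symm
  rw [Equiv.Perm.sign_permCongr, Units.smul_def, zsmul_eq_mul]
  congr 1
  rw [MultilinearMap.domDomCongr_apply, mixM_apply]
  simp only [Equiv.permCongr_apply, Equiv.symm_apply_apply]

lemma mixA_eq_mixedProd {p q N : ℕ} (b : Fin p → W →ₗ[ℂ] W →ₗ[ℂ] ℂ)
    (w : Fin q → MultilinearMap ℂ (fun _ : Fin 4 => W) ℂ) (ε : Idx (Fin p) (Fin q) ≃ Fin N)
    (v : Fin N → W) :
    mixA b w ε v = mixedProd ε (fun a u v => b a u v) (fun c u => w c u) v := by
  rw [mixA_apply]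
  rfl

end mix

end Pool.Agent.Helper11.W4
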