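import Pool.Agent.Helper11.W4.Mix

/-!
Replacement of the factors of alternating products.
-/

namespace Pool.Agent.Helper11.W4

open Module Pool.Agent.Helper7 Pool.Agent.GPC

section decomp

variable {R W : Type*} [DecidableEq R] [AddCommGroup W] [Module ℂ W]
    {𝓑 : Set (W →ₗ[ℂ] W →ₗ[ℂ] ℂ)} {𝓓 : Set (MultilinearMap ℂ (fun _ : Fin 4 => W) ℂ)}

/-- the shape of products -/
lemma PQ_decomp {T : Finset R} {Φ : (R → W) → ℂ} (h : PQ 𝓑 𝓓 T Φ) :
    ∃ (p q : ℕ) (e : Idx (Fin p) (Fin q) → R) (b : Fin p → (W →ₗ[ℂ] W →ₗ[ℂ] ℂ))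
      (D : Fin q → MultilinearMap ℂ (fun _ : Fin 4 => W) ℂ),
      Function.Injective e ∧ (∀ r, r ∈ T ↔ ∃ x, e x = r) ∧ (∀ a, b a ∈ 𝓑) ∧ (∀ c, D c ∈ 𝓓) ∧
      ∀ v, Φ v = (∏ a, b a (v (e (.inl (a, 0)))) (v (e (.inl (a, 1))))) *
        ∏ c, D c (fun j => v (e (.inr (c, j)))) := by
  induction h with
  | nil =>
    refine ⟨0, 0, fun x => ?_, fun a => a.elim0, fun a => a.elim0, ?_, ?_, fun a => a.elim0,
      fun a => a.elim0, ?_⟩
    · rcases x with x | x
      · exact x.1.elim0
      · exact x.1.elim0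
    · rintro (x | x)
      · exact x.1.elim0
      · exact x.1.elim0
    · intro r
      constructor
      · intro h; exact absurd h (Finset.notMem_empty r)
      · rintro ⟨x | x, -⟩
        · exact x.1.elim0
        · exact x.1.elim0
    · intro v
      simp
  | @pair T Φ r r' β hβ _ hr hr' hne ih =>
    obtain ⟨p, q, e, b, D, he, hT, hb, hD, hΦ⟩ := ih
    have hrT : ∀ x, e x ≠ r := fun x hx => hr ((hT r).mpr ⟨x, hx⟩)
    have hrT' : ∀ x, e x ≠ r' := fun x hx => hr' ((hT r').mpr ⟨x, hx⟩)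
    let e' : Idx (Fin (p + 1)) (Fin q) → R := fun x => match x with
      | .inl (a, i) => Fin.cases (motive := fun _ => R) (if i = 0 then r else r')
          (fun a => e (.inl (a, i))) a
      | .inr y => e (.inr y)
    have e0 : e' (.inl (0, 0)) = r := rfl
    have e1 : e' (.inl (0, 1)) = r' := rfl
    have es : ∀ a i, e' (.inl (Fin.succ a, i)) = e (.inl (a, i)) := fun a i => rfl
    have er : ∀ y, e' (.inr y) = e (.inr y) := fun y => rfl
    refine ⟨p + 1, q, e', Fin.cons β b, D, ?_, ?_, ?_, hD, ?_⟩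
    · have key : ∀ x : Idx (Fin (p + 1)) (Fin q), x = .inl (0, 0) ∨ x = .inl (0, 1) ∨
          ∃ y : Idx (Fin p) (Fin q), e' x = e y ∧
            x = Sum.map (fun z => (Fin.succ z.1, z.2)) id y := by
        rintro (⟨a, i⟩ | y)
        · refine Fin.cases ?_ (fun a => ?_) a
          · fin_cases i
            · exact Or.inl rfl
            · exact Or.inr (Or.inl rfl)
          · exact Or.inr (Or.inr ⟨.inl (a, i), rfl, rfl⟩)
        · exact Or.inr (Or.inr ⟨.inr y, rfl, rfl⟩)
      intro x y hxy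
      rcases key x with rfl | rfl | ⟨x', hx1, hx2⟩ <;> rcases key y with rfl | rfl | ⟨y', hy1, hy2⟩
      · rfl
      · exact absurd hxy hne
      · rw [hy1, e0] at hxy; exact absurd hxy.symm (hrT y')
      · exact absurd hxy.symm hne
      · rfl
      · rw [hy1, e1] at hxy; exact absurd hxy.symm (hrT' y')
      · rw [hx1, e0] at hxy; exact absurd hxy (hrT x')
      · rw [hx1, e1] at hxy; exact absurd hxy (hrT' x')
      · rw [hx1, hy1] at hxy
        rw [hx2, hy2, he hxy]
    · intro s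
      rw [Finset.mem_insert, Finset.mem_insert, hT]
      constructor
      · rintro (rfl | rfl | ⟨x, rfl⟩)
        · exact ⟨.inl (0, 0), e0⟩
        · exact ⟨.inl (0, 1), e1⟩
        · rcases x with ⟨a, i⟩ | y
          · exact ⟨.inl (a.succ, i), rfl⟩
          · exact ⟨.inr y, rfl⟩
      · rintro ⟨⟨a, i⟩ | y, hx⟩
        · revert hx
          refine Fin.cases ?_ (fun a => ?_) a
          · fin_cases i
            · intro hx; exact Or.inl hx.symm
            · intro hx; exact Or.inr (Or.inl hx.symm)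
          · intro hx; exact Or.inr (Or.inr ⟨_, hx⟩)
        · exact Or.inr (Or.inr ⟨_, hx⟩)
    · intro a
      refine Fin.cases ?_ (fun a => ?_) a
      · exact hβ
      · exact hb a
    · intro v
      show β (v r) (v r') * Φ v = _
      rw [Fin.prod_univ_succ, hΦ, ← mul_assoc]
      rfl
  | @quad T Φ f D₀ hD₀ _ hf hfT ih =>
    obtain ⟨p, q, e, b, D, he, hT, hb, hD, hΦ⟩ := ih
    have hrT : ∀ x j, e x ≠ f j := fun x j hx => hfT j ((hT _).mpr ⟨x, hx⟩)
    let e' : Idx (Fin p) (Fin (q + 1)) → R := fun x => match x with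
      | .inl y => e (.inl y)
      | .inr (c, j) => Fin.cases (motive := fun _ => R) (f j) (fun c => e (.inr (c, j))) c
    have e0 : ∀ j, e' (.inr (0, j)) = f j := fun j => rfl
    refine ⟨p, q + 1, e', b, Fin.cons D₀ D, ?_, ?_, hb, ?_, ?_⟩
    · have key : ∀ x : Idx (Fin p) (Fin (q + 1)), (∃ j, x = .inr (0, j)) ∨
          ∃ y : Idx (Fin p) (Fin q), e' x = e y ∧
            x = Sum.map id (fun z => (Fin.succ z.1, z.2)) y := by
        rintro (y | ⟨c, j⟩)
        · exact Or.inr ⟨.inl y, rfl, rfl⟩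
        · refine Fin.cases ?_ (fun c => ?_) c
          · exact Or.inl ⟨j, rfl⟩
          · exact Or.inr ⟨.inr (c, j), rfl, rfl⟩
      intro x y hxy
      rcases key x with ⟨j, rfl⟩ | ⟨x', hx1, hx2⟩ <;> rcases key y with ⟨j', rfl⟩ | ⟨y', hy1, hy2⟩
      · rw [e0, e0] at hxy
        rw [hf hxy]
      · rw [hy1, e0] at hxy; exact absurd hxy.symm (hrT y' j)
      · rw [hx1, e0] at hxy; exact absurd hxy (hrT x' j')
      · rw [hx1, hy1] at hxy
        rw [hx2, hy2, he hxy]
    · intro s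
      rw [Finset.mem_union, Finset.mem_image, hT]
      constructor
      · rintro (⟨j, -, rfl⟩ | ⟨x, rfl⟩)
        · exact ⟨.inr (0, j), e0 j⟩
        · rcases x with y | ⟨c, j⟩
          · exact ⟨.inl y, rfl⟩
          · exact ⟨.inr (c.succ, j), rfl⟩
      · rintro ⟨y | ⟨c, j⟩, hx⟩
        · exact Or.inr ⟨_, hx⟩
        · revert hx
          refine Fin.cases ?_ (fun c => ?_) c
          · intro hx; exact Or.inl ⟨j, Finset.mem_univ _, hx⟩
          · intro hx; exact Or.inr ⟨_, hx⟩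
    · intro c
      refine Fin.cases ?_ (fun c => ?_) c
      · exact hD₀
      · exact hD c
    · intro v
      show D₀ (fun j => v (f j)) * Φ v = _
      rw [Fin.prod_univ_succ, hΦ]
      have h1 : ∀ x y z : ℂ, x * (y * z) = y * (x * z) := fun x y z => by ring
      rw [h1]
      rfl

end decomp

section span

variable {W : Type*} [AddCommGroup W] [Module ℂ W]

/-- an alternating form in the span of products is in the span of alternating products -/
lemma mem_span_mixA {𝓑 : Set (W →ₗ[ℂ] W →ₗ[ℂ] ℂ)}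
    {𝓓 : Set (MultilinearMap ℂ (fun _ : Fin 4 => W) ℂ)} {N : ℕ} (α : W [⋀^Fin N]→ₗ[ℂ] ℂ)
    (h : (fun v => α v) ∈ Submodule.span ℂ {Φ : (Fin N → W) → ℂ | PQ 𝓑 𝓓 Finset.univ Φ}) :
    α ∈ Submodule.span ℂ {ω : W [⋀^Fin N]→ₗ[ℂ] ℂ | ∃ (p q : ℕ) (b : Fin p → (W →ₗ[ℂ] W →ₗ[ℂ] ℂ))
      (D : Fin q → MultilinearMap ℂ (fun _ : Fin 4 => W) ℂ) (ε : Idx (Fin p) (Fin q) ≃ Fin N),
      (∀ a, b a ∈ 𝓑) ∧ (∀ c, D c ∈ 𝓓) ∧ ω = mixA b D ε} := by
  classical
  set S := {ω : W [⋀^Fin N]→ₗ[ℂ] ℂ | ∃ (p q : ℕ) (b : Fin p → (W →ₗ[ℂ] W →ₗ[ℂ] ℂ))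
      (D : Fin q → MultilinearMap ℂ (fun _ : Fin 4 => W) ℂ) (ε : Idx (Fin p) (Fin q) ≃ Fin N),
      (∀ a, b a ∈ 𝓑) ∧ (∀ c, D c ∈ 𝓓) ∧ ω = mixA b D ε} with hS
  have key : ∀ Φ ∈ Submodule.span ℂ {Φ : (Fin N → W) → ℂ | PQ 𝓑 𝓓 Finset.univ Φ},
      ∃ ω ∈ Submodule.span ℂ S, ∀ v, ω v =
        ∑ σ : Equiv.Perm (Fin N), ((Equiv.Perm.sign σ : ℤ) : ℂ) * Φ (fun i => v (σ i)) := by
    intro Φ hΦ
    induction hΦ using Submodule.span_induction with
    | mem Φ hΦ =>
      obtain ⟨p, q, e, b, D, he, hT, hb, hD, hval⟩ := PQ_decomp hΦ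
      have hsurj : Function.Surjective e := fun r => (hT r).mp (Finset.mem_univ r)
      let ε : Idx (Fin p) (Fin q) ≃ Fin N := Equiv.ofBijective e ⟨he, hsurj⟩
      refine ⟨mixA b D ε, Submodule.subset_span ⟨p, q, b, D, ε, hb, hD, rfl⟩, fun v => ?_⟩
      rw [mixA, MultilinearMap.alternatization_apply]
      refine Finset.sum_congr rfl fun σ _ => ?_
      rw [Units.smul_def, zsmul_eq_mul]
      congr 1
      rw [MultilinearMap.domDomCongr_apply, mixM_apply, hval]
      rfl
    | zero => exact ⟨0, Submodule.zero_mem _, fun v => by simp⟩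
    | add x y _ _ hx hy =>
      obtain ⟨ω, h1, h2⟩ := hx
      obtain ⟨ω', h1', h2'⟩ := hy
      refine ⟨ω + ω', Submodule.add_mem _ h1 h1', fun v => ?_⟩
      rw [AlternatingMap.add_apply, h2, h2', ← Finset.sum_add_distrib]
      refine Finset.sum_congr rfl fun σ _ => ?_
      rw [Pi.add_apply, mul_add]
    | smul c x _ hx =>
      obtain ⟨ω, h1, h2⟩ := hx
      refine ⟨c • ω, Submodule.smul_mem _ _ h1, fun v => ?_⟩
      rw [AlternatingMap.smul_apply, h2, smul_eq_mul, Finset.mul_sum]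
      refine Finset.sum_congr rfl fun σ _ => ?_
      rw [Pi.smul_apply, smul_eq_mul]
      ring
  obtain ⟨ω, hω, hval⟩ := key _ h
  have h3 : ω = ((Nat.factorial N : ℕ) : ℂ) • α := by
    ext v
    rw [hval, AlternatingMap.smul_apply, smul_eq_mul]
    have h4 : ∀ σ : Equiv.Perm (Fin N), ((Equiv.Perm.sign σ : ℤ) : ℂ) * α (fun i => v (σ i)) =
        α v := by
      intro σ
      have h5 := α.map_perm v σ
      have h6 : α (fun i => v (σ i)) = α (v ∘ σ) := rfl
      rw [h6, h5, Units.smul_def, zsmul_eq_mul, ← mul_assoc, ← Int.cast_mul, ← Units.val_mul,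
        Int.units_mul_self, Units.val_one, Int.cast_one, one_mul]
    rw [Finset.sum_congr rfl fun σ _ => h4 σ, Finset.sum_const, Finset.card_univ,
      Fintype.card_perm, Fintype.card_fin, nsmul_eq_mul]
  have h7 : α = (((Nat.factorial N : ℕ) : ℂ)⁻¹) • ω := by
    rw [h3, smul_smul, inv_mul_cancel₀ (Nat.cast_ne_zero.mpr (Nat.factorial_ne_zero _)), one_smul]
  rw [h7]
  exact Submodule.smul_mem _ _ hω

end span

section repl

variable {W : Type*} [AddCommGroup W] [Module ℂ W] {P Q : Type} [Fintype P] [Fintype Q]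
  [DecidableEq P] [DecidableEq Q] {N : ℕ}

lemma prod_update_eq {P V : Type*} [Fintype P] [DecidableEq P] (F : P → V → ℂ) (f : P → V)
    (a₀ : P) (x : V) :
    ∏ a, F a (Function.update f a₀ x a) = F a₀ x * ∏ a ∈ ({a₀} : Finset P)ᶜ, F a (f a) := by
  rw [Fintype.prod_eq_mul_prod_compl a₀, Function.update_self]
  congr 1
  refine Finset.prod_congr rfl fun a ha => ?_
  rw [Finset.mem_compl, Finset.mem_singleton] at ha
  rw [Function.update_of_ne ha]

variable (b : P → W →ₗ[ℂ] W →ₗ[ℂ] ℂ) (w : Q → MultilinearMap ℂ (fun _ : Fin 4 => W) ℂ)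
  (ε : Idx P Q ≃ Fin N)

lemma mixA_b_add (a : P) (x y : W →ₗ[ℂ] W →ₗ[ℂ] ℂ) :
    mixA (Function.update b a (x + y)) w ε =
      mixA (Function.update b a x) w ε + mixA (Function.update b a y) w ε := by
  ext v
  rw [AlternatingMap.add_apply, mixA_apply, mixA_apply, mixA_apply, ← Finset.sum_add_distrib]
  refine Finset.sum_congr rfl fun π _ => ?_
  have h := prod_update_eq (fun a (β : W →ₗ[ℂ] W →ₗ[ℂ] ℂ) =>
    β (v (ε (π (.inl (a, 0))))) (v (ε (π (.inl (a, 1)))))) b a
  rw [h, h, h, LinearMap.add_apply, LinearMap.add_apply]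
  ring

lemma mixA_b_smul (a : P) (c : ℂ) (x : W →ₗ[ℂ] W →ₗ[ℂ] ℂ) :
    mixA (Function.update b a (c • x)) w ε = c • mixA (Function.update b a x) w ε := by
  ext v
  rw [AlternatingMap.smul_apply, mixA_apply, mixA_apply, smul_eq_mul, Finset.mul_sum]
  refine Finset.sum_congr rfl fun π _ => ?_
  have h := prod_update_eq (fun a (β : W →ₗ[ℂ] W →ₗ[ℂ] ℂ) =>
    β (v (ε (π (.inl (a, 0))))) (v (ε (π (.inl (a, 1)))))) b a
  rw [h, h, LinearMap.smul_apply, LinearMap.smul_apply, smul_eq_mul]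
  ring

lemma mixA_w_add (c : Q) (x y : MultilinearMap ℂ (fun _ : Fin 4 => W) ℂ) :
    mixA b (Function.update w c (x + y)) ε =
      mixA b (Function.update w c x) ε + mixA b (Function.update w c y) ε := by
  ext v
  rw [AlternatingMap.add_apply, mixA_apply, mixA_apply, mixA_apply, ← Finset.sum_add_distrib]
  refine Finset.sum_congr rfl fun π _ => ?_
  have h := prod_update_eq (fun c (β : MultilinearMap ℂ (fun _ : Fin 4 => W) ℂ) =>
    β (fun j => v (ε (π (.inr (c, j)))))) w c
  rw [h, h, h, _root_.add_apply]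
  ring

lemma mixA_w_smul (c : Q) (t : ℂ) (x : MultilinearMap ℂ (fun _ : Fin 4 => W) ℂ) :
    mixA b (Function.update w c (t • x)) ε = t • mixA b (Function.update w c x) ε := by
  ext v
  rw [AlternatingMap.smul_apply, mixA_apply, mixA_apply, smul_eq_mul, Finset.mul_sum]
  refine Finset.sum_congr rfl fun π _ => ?_
  have h := prod_update_eq (fun c (β : MultilinearMap ℂ (fun _ : Fin 4 => W) ℂ) =>
    β (fun j => v (ε (π (.inr (c, j)))))) w c
  rw [h, h, _root_.smul_apply, smul_eq_mul]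
  ring

/-- permutations of the slots -/
lemma mixA_of_perm (b' : P → W →ₗ[ℂ] W →ₗ[ℂ] ℂ) (w' : Q → MultilinearMap ℂ (fun _ : Fin 4 => W) ℂ)
    (π : Equiv.Perm (Idx P Q)) (h : ∀ u : Idx P Q → W, mixX b' w' u = mixX b w (u ∘ π)) :
    mixA b' w' ε = ((Equiv.Perm.sign π : ℤ) : ℂ) • mixA b w ε := by
  have h1 : mixM b' w' ε = (mixM b w ε).domDomCongr (ε.permCongr π) := by
    ext v
    rw [MultilinearMap.domDomCongr_apply]
    show mixX b' w' (fun i => v (ε i)) = mixX b w (fun i => v ((ε.permCongr π) (ε i)))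
    rw [h]
    congr 1
    funext i
    show v (ε (π i)) = v ((ε.permCongr π) (ε i))
    rw [Equiv.permCongr_apply, Equiv.symm_apply_apply]
  rw [mixA, h1, alternatization_domDomCongr, Equiv.Perm.sign_permCongr]
  rw [Units.smul_def, ← Int.cast_smul_eq_zsmul ℂ]
  rfl

lemma mixA_flip (a : P) :
    mixA (Function.update b a (b a).flip) w ε = - mixA b w ε := by
  have h := mixA_of_perm b w ε (Function.update b a (b a).flip) w
    (Equiv.swap (.inl (a, 0)) (.inl (a, 1))) (fun u => by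
      rw [mixX_apply, mixX_apply]
      congr 1
      · refine Finset.prod_congr rfl fun a' _ => ?_
        by_cases ha : a' = a
        · subst ha
          rw [Function.update_self, LinearMap.flip_apply]
          simp
        · rw [Function.update_of_ne ha]
          rw [Function.comp_apply, Function.comp_apply, Equiv.swap_apply_of_ne_of_ne,
            Equiv.swap_apply_of_ne_of_ne]
          · simp [ha]
          · simp [ha]
          · simp [ha]
          · simp [ha]
      )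
  rw [h, Equiv.Perm.sign_swap (by simp)]
  simp

/-- a permutation of one block of length four -/
def blkPerm (c : Q) (σ : Equiv.Perm (Fin 4)) : Equiv.Perm (Idx P Q) :=
  Equiv.sumCongr (Equiv.refl (P × Fin 2)) (Equiv.Perm.prodExtendRight c σ)

lemma sign_blkPerm (c : Q) (σ : Equiv.Perm (Fin 4)) :
    Equiv.Perm.sign (blkPerm (P := P) c σ) = Equiv.Perm.sign σ := by
  have h : blkPerm (P := P) c σ = Equiv.Perm.sumCongr 1 (Equiv.Perm.prodExtendRight c σ) := rfl
  rw [h, Equiv.Perm.sign_sumCongr, Equiv.Perm.sign_one, one_mul,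
    Equiv.Perm.sign_prodExtendRight]

lemma mixA_blk (c : Q) (σ : Equiv.Perm (Fin 4)) :
    mixA b (Function.update w c ((w c).domDomCongr σ)) ε =
      ((Equiv.Perm.sign σ : ℤ) : ℂ) • mixA b w ε := by
  have h := mixA_of_perm b w ε b (Function.update w c ((w c).domDomCongr σ))
    (blkPerm c σ) (fun u => by
      rw [mixX_apply, mixX_apply]
      congr 1
      refine Finset.prod_congr rfl fun c' _ => ?_
      by_cases hc : c' = c
      · subst hc
        rw [Function.update_self, MultilinearMap.domDomCongr_apply]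
        congr 1
        funext j
        show _ = u (blkPerm c' σ (.inr (c', j)))
        congr 1
        show _ = Sum.inr (Equiv.Perm.prodExtendRight c' σ (c', j))
        rw [Equiv.Perm.prodExtendRight_apply_eq]
      · rw [Function.update_of_ne hc]
        congr 1
        funext j
        show _ = u (blkPerm c σ (.inr (c', j)))
        congr 1
        show _ = Sum.inr (Equiv.Perm.prodExtendRight c σ (c', j))
        rw [Equiv.Perm.prodExtendRight_apply_ne σ hc])
  rw [h, sign_blkPerm]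

/-- antisymmetrisation of a multilinear map in four variables -/
noncomputable def asym (x : MultilinearMap ℂ (fun _ : Fin 4 => W) ℂ) :
    MultilinearMap ℂ (fun _ : Fin 4 => W) ℂ :=
  ∑ σ : Equiv.Perm (Fin 4), ((Equiv.Perm.sign σ : ℤ) : ℂ) • x.domDomCongr σ

lemma mixA_asym (c : Q) :
    mixA b (Function.update w c (asym (w c))) ε = (24 : ℂ) • mixA b w ε := by
  let L : MultilinearMap ℂ (fun _ : Fin 4 => W) ℂ →ₗ[ℂ] W [⋀^Fin N]→ₗ[ℂ] ℂ :=
    { toFun := fun x => mixA b (Function.update w c x) ε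
      map_add' := mixA_w_add b w ε c
      map_smul' := mixA_w_smul b w ε c }
  have h1 : mixA b (Function.update w c (asym (w c))) ε = L (asym (w c)) := rfl
  rw [h1, asym, map_sum]
  have h2 : ∀ σ : Equiv.Perm (Fin 4), L (((Equiv.Perm.sign σ : ℤ) : ℂ) • (w c).domDomCongr σ) =
      mixA b w ε := by
    intro σ
    rw [map_smul]
    show _ • mixA b (Function.update w c ((w c).domDomCongr σ)) ε = _
    rw [mixA_blk, smul_smul, ← Int.cast_mul, ← Units.val_mul, Int.units_mul_self, Units.val_one,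
      Int.cast_one, one_smul]
  rw [Finset.sum_congr rfl fun σ _ => h2 σ, Finset.sum_const, Finset.card_univ,
    Fintype.card_perm, Fintype.card_fin, ← Nat.cast_smul_eq_nsmul ℂ]
  norm_num [Nat.factorial]

/-- replacement of the factors -/
theorem mixA_mem_span (𝓑 : Set (W →ₗ[ℂ] W →ₗ[ℂ] ℂ))
    (𝓓 : Set (MultilinearMap ℂ (fun _ : Fin 4 => W) ℂ))
    (hb : ∀ a, b a - (b a).flip ∈ Submodule.span ℂ 𝓑)
    (hw : ∀ c, asym (w c) ∈ Submodule.span ℂ 𝓓) :
    mixA b w ε ∈ Submodule.span ℂ {ω : W [⋀^Fin N]→ₗ[ℂ] ℂ |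
      ∃ (b' : P → (W →ₗ[ℂ] W →ₗ[ℂ] ℂ)) (w' : Q → MultilinearMap ℂ (fun _ : Fin 4 => W) ℂ),
        (∀ a, b' a ∈ 𝓑) ∧ (∀ c, w' c ∈ 𝓓) ∧ ω = mixA b' w' ε} := by
  have h1 := span_multi (fun b => mixA b w ε) (fun f a x y => mixA_b_add f w ε a x y)
    (fun f a c x => mixA_b_smul f w ε a c x) (fun x => x - x.flip) 2 two_ne_zero
    (fun f a => by
      have h2 : f a - (f a).flip = f a + (-1 : ℂ) • (f a).flip := by
        apply LinearMap.ext; intro u
        apply LinearMap.ext; intro v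
        simp only [LinearMap.sub_apply, LinearMap.add_apply, LinearMap.smul_apply, smul_eq_mul]
        ring
      show mixA (Function.update f a (f a - (f a).flip)) w ε = _
      rw [h2, mixA_b_add, mixA_b_smul, mixA_flip, Function.update_eq_self, neg_smul, one_smul,
        neg_neg, two_smul]) 𝓑 b hb
  refine Submodule.span_le.mpr ?_ h1
  rintro ω ⟨b', hb', rfl⟩
  have h3 := span_multi (fun w => mixA b' w ε) (fun f a x y => mixA_w_add b' f ε a x y)
    (fun f a c x => mixA_w_smul b' f ε a c x) asym 24 (by norm_num)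
    (fun f a => mixA_asym b' f ε a) 𝓓 w hw
  refine Submodule.span_mono ?_ h3
  rintro ω ⟨w', hw', rfl⟩
  exact ⟨b', w', hb', hw', rfl⟩

end repl

end Pool.Agent.Helper11.W4
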