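import Pool.Agent.Helper11.W4.Repl

/-!
From the complex span of products to rational combinations of products of pull-backs of the
polarisation and of Grothendieck Weil classes.
-/

namespace Pool.Agent.Helper11.W4

open Module Pool.Agent.Helper7 Pool.Agent.GPC

/-- slots of a product of type `(p, q)` -/
lemma card_slots {p q k : ℕ} (ε : Idx (Fin p) (Fin q) ≃ Fin (2 * k)) : p + 2 * q = k := by
  have h := Fintype.card_congr ε
  simp only [Fintype.card_sum, Fintype.card_prod, Fintype.card_fin] at h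
  omega

section hom

variable (A : AbVar) (n : ℕ)

/-- homomorphisms from the abstract ones -/
lemma isHom_of_drbW (h : H1 (fun _ : Unit => A) (fun _ => n) →ₗ[ℂ] A.H1)
    (hh : h ∈ drbW (κ := fun _ : Unit => Fin A.g ⊕ Fin A.g) (fun _ => n) (fun _ => pData A) ()) :
    IsHom (fun _ : Unit => A) (fun _ => n) () h := by
  have hcomp : ∀ (v : H1 (fun _ : Unit => A) (fun _ => n)),
      h v = ∑ j, ∑ m, (h ∘ₗ slotL (fun _ : Unit => n) j m) (v j m) := by
    intro v
    conv_lhs => rw [← sum_slot (fun _ : Unit => n) v]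
    simp only [map_sum]
    rfl
  refine ⟨h.isLinear, fun v hv => ?_, fun v hv => ?_, fun v hv b => ?_⟩
  · change A.IsBetti (h v)
    rw [isBetti_iff, hcomp]
    refine Submodule.sum_mem _ fun j _ => Submodule.sum_mem _ fun m _ => ?_
    rw [← isBetti_iff]
    exact ((isDRB_iff _ _ _).mp (hh j m)).1 _ (hv j m)
  · change A.IsDeRham (h v)
    rw [hcomp]
    intro b
    rw [Finset.sum_apply]
    refine isAlg_sum _ _ fun j _ => ?_
    rw [Finset.sum_apply]
    refine isAlg_sum _ _ fun m _ => ?_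
    exact ((isDRB_iff _ _ _).mp (hh j m)).2 _ (hv j m) b
  · change (h v) (.inl b) = 0
    rw [hcomp, Finset.sum_apply]
    refine Finset.sum_eq_zero fun j _ => ?_
    rw [Finset.sum_apply]
    refine Finset.sum_eq_zero fun m _ => ?_
    exact hom_fil A A (h ∘ₗ slotL (fun _ : Unit => n) j m) (LinearMap.isLinear _)
      ((isDRB_iff _ _ _).mp (hh j m)).1 ((isDRB_iff _ _ _).mp (hh j m)).2 _ (hv j m) b

/-- sums of coordinates -/
lemma sum_pr_mem (C : Finset (Fin 4)) (m : Fin 4 → Fin n) :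
    (∑ j ∈ C, prL (κ := fun _ : Unit => Fin A.g ⊕ Fin A.g) (fun _ => n) () (m j)) ∈
      drbW (κ := fun _ : Unit => Fin A.g ⊕ Fin A.g) (fun _ => n) (fun _ => pData A) () := by
  classical
  induction C using Finset.induction_on with
  | empty =>
    rw [Finset.sum_empty]
    intro j m
    rw [LinearMap.zero_comp]
    exact IsDRB.zero (fun _ : Unit => pData A) j ()
  | insert a C ha ih =>
    rw [Finset.sum_insert ha]
    refine drbW_add (κ := fun _ : Unit => Fin A.g ⊕ Fin A.g) (fun _ => n) (fun _ => pData A) ?_ ih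
    have h2 := drbW_comp (κ := fun _ : Unit => Fin A.g ⊕ Fin A.g) (fun _ => n) (fun _ => pData A)
      () () (m a) LinearMap.id (IsDRB.id (fun _ : Unit => pData A) ())
    rw [LinearMap.id_comp] at h2
    exact h2

variable (J : A.H1 → A.H1)

/-- pull-backs of Grothendieck Weil classes -/
def GQ : Set (MultilinearMap ℂ (fun _ : Fin 4 => H1 (fun _ : Unit => A) (fun _ => n)) ℂ) :=
  {D | ∃ (g : H1 (fun _ : Unit => A) (fun _ => n) →ₗ[ℂ] A.H1) (w : A.H1 [⋀^Fin 4]→ₗ[ℂ] ℂ),
    g ∈ drbW (κ := fun _ : Unit => Fin A.g ⊕ Fin A.g) (fun _ => n) (fun _ => pData A) () ∧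
    A.IsGrWeil J w ∧ ∀ u, D u = w (fun j => g (u j))}

/-- pull-backs of Weil classes -/
lemma pull_mem_GQ (g : H1 (fun _ : Unit => A) (fun _ => n) →ₗ[ℂ] A.H1)
    (hg : g ∈ drbW (κ := fun _ : Unit => Fin A.g ⊕ Fin A.g) (fun _ => n) (fun _ => pData A) ())
    (w : A.H1 [⋀^Fin 4]→ₗ[ℂ] ℂ) (hw : w ∈ Submodule.span ℂ {w | A.IsGrWeil J w}) :
    (w : MultilinearMap ℂ (fun _ : Fin 4 => A.H1) ℂ).compLinearMap (fun _ => g) ∈
      Submodule.span ℂ (GQ A n J) := by
  induction hw using Submodule.span_induction with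
  | mem w hw => exact Submodule.subset_span ⟨g, w, hg, hw, fun u => rfl⟩
  | zero =>
    have h : ((0 : A.H1 [⋀^Fin 4]→ₗ[ℂ] ℂ) : MultilinearMap ℂ (fun _ : Fin 4 => A.H1)
        ℂ).compLinearMap (fun _ => g) = 0 := by
      ext u
      rfl
    rw [h]
    exact Submodule.zero_mem _
  | add x y _ _ hx hy =>
    have h : ((x + y : A.H1 [⋀^Fin 4]→ₗ[ℂ] ℂ) : MultilinearMap ℂ (fun _ : Fin 4 => A.H1)
        ℂ).compLinearMap (fun _ => g) =
        (x : MultilinearMap ℂ (fun _ : Fin 4 => A.H1) ℂ).compLinearMap (fun _ => g) +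
        (y : MultilinearMap ℂ (fun _ : Fin 4 => A.H1) ℂ).compLinearMap (fun _ => g) := by
      ext u
      rfl
    rw [h]
    exact Submodule.add_mem _ hx hy
  | smul c x _ hx =>
    have h : ((c • x : A.H1 [⋀^Fin 4]→ₗ[ℂ] ℂ) : MultilinearMap ℂ (fun _ : Fin 4 => A.H1)
        ℂ).compLinearMap (fun _ => g) =
        c • (x : MultilinearMap ℂ (fun _ : Fin 4 => A.H1) ℂ).compLinearMap (fun _ => g) := by
      ext u
      rfl
    rw [h]
    exact Submodule.smul_mem _ _ hx

/-- antisymmetrisations of the generators of degree four -/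
lemma asym_mem
    (hw : ∀ w : A.H1 [⋀^Fin 4]→ₗ[ℂ] ℂ,
      (∀ v r s, w (Function.update v r (J (v r))) = w (Function.update v s (J (v s)))) →
      w ∈ Submodule.span ℂ {w | A.IsGrWeil J w})
    (D : MultilinearMap ℂ (fun _ : Fin 4 => H1 (fun _ : Unit => A) (fun _ => n)) ℂ)
    (m : Fin 4 → Fin n) (w : A.H1 [⋀^Fin 4]→ₗ[ℂ] ℂ)
    (hbal : ∀ v r s, w (Function.update v r (J (v r))) = w (Function.update v s (J (v s))))
    (hD : ∀ u, D u = w (fun j => u j () (m j))) :
    asym D ∈ Submodule.span ℂ (GQ A n J) := by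
  classical
  have h1 : asym D = ∑ C : Finset (Fin 4), (-1 : ℂ) ^ C.card •
      (w : MultilinearMap ℂ (fun _ : Fin 4 => A.H1) ℂ).compLinearMap
        (fun _ => ∑ j ∈ Cᶜ, prL (κ := fun _ : Unit => Fin A.g ⊕ Fin A.g) (fun _ => n) () (m j)) := by
    refine MultilinearMap.ext fun u => ?_
    rw [asym, _root_.sum_apply, _root_.sum_apply]
    have h2 : ∀ σ : Equiv.Perm (Fin 4), (((Equiv.Perm.sign σ : ℤ) : ℂ) • D.domDomCongr σ) u =
        w (fun i => u i () (m (σ⁻¹ i))) := by
      intro σ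
      rw [_root_.smul_apply, smul_eq_mul, MultilinearMap.domDomCongr_apply, hD]
      have h3 := w.map_perm (fun i => u i () (m (σ⁻¹ i))) σ
      have h4 : (fun i => u i () (m (σ⁻¹ i))) ∘ σ = fun j => u (σ j) () (m j) := by
        funext j
        simp
      rw [h4] at h3
      rw [h3, Units.smul_def, zsmul_eq_mul, ← mul_assoc, ← Int.cast_mul, ← Units.val_mul,
        Int.units_mul_self, Units.val_one, Int.cast_one, one_mul]
    rw [Finset.sum_congr rfl fun σ _ => h2 σ]
    have h5 : ∑ σ : Equiv.Perm (Fin 4), w (fun i => u i () (m (σ⁻¹ i))) =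
        ∑ σ : Equiv.Perm (Fin 4), w (fun i => u i () (m (σ i))) :=
      Fintype.sum_equiv (Equiv.inv _) _ _ fun σ => rfl
    rw [h5]
    have h6 := polar (w : MultilinearMap ℂ (fun _ : Fin 4 => A.H1) ℂ) (fun i j => u i () (m j))
    refine h6.trans (Finset.sum_congr rfl fun C _ => ?_)
    rw [_root_.smul_apply, smul_eq_mul]
    congr 1
    show w _ = w _
    congr 1
    funext i
    rw [LinearMap.sum_apply]
    rfl
  rw [h1]
  exact Submodule.sum_mem _ fun C _ => Submodule.smul_mem _ _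
    (pull_mem_GQ A n J _ (sum_pr_mem A n _ m) w (hw w hbal))

end hom

/-- D1: from the complex span -/
theorem divWeilPow_of_span (A : AbVar) (n : ℕ) (J : A.H1 → A.H1) (k : ℕ)
    (hw : ∀ w : A.H1 [⋀^Fin 4]→ₗ[ℂ] ℂ,
      (∀ v r s, w (Function.update v r (J (v r))) = w (Function.update v s (J (v s)))) →
      w ∈ Submodule.span ℂ {w | A.IsGrWeil J w})
    (α : Form (fun _ : Unit => A) (fun _ => n) (2 * k))
    (hB : ∀ v : Fin (2 * k) → H1 (fun _ : Unit => A) (fun _ => n),
      (∀ r, IsBetti (fun _ : Unit => A) (fun _ => n) (v r)) →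
      ∃ c : ℚ, α v = (2 * Real.pi * Complex.I) ^ k * c)
    {l : ℕ} (M : MultilinearMap ℂ (fun _ : Fin (2 * l) => H1 (fun _ : Unit => A) (fun _ => n)) ℂ)
    (hBM : ∀ v : Fin (2 * l) → H1 (fun _ : Unit => A) (fun _ => n),
      (∀ r, IsBetti (fun _ : Unit => A) (fun _ => n) (v r)) →
      ∃ c : ℚ, M v = (2 * Real.pi * Complex.I) ^ l * c)
    (hAM : ∀ v : Fin (2 * l) → H1 (fun _ : Unit => A) (fun _ => n),
      (∀ r, IsDeRham (fun _ : Unit => A) (fun _ => n) (v r)) → IsAlgebraic ℚ (M v))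
    (h : (fun v => α v) ∈ Submodule.span ℂ {Φ : ((Fin (2 * k) → H1 (fun _ : Unit => A) (fun _ => n)) → ℂ) |
      PQ (invB (κ := fun _ : Unit => Fin A.g ⊕ Fin A.g) (fun _ => n) (fun _ => pData A) M)
        {D | ∃ (m : Fin 4 → Fin n) (w : A.H1 [⋀^Fin 4]→ₗ[ℂ] ℂ),
          (∀ v r s, w (Function.update v r (J (v r))) = w (Function.update v s (J (v s)))) ∧
          ∀ u, D u = w (fun j => u j () (m j))} Finset.univ Φ}) :
    IsDivWeilPow A n J k α := by
  classical
  have hϖ : (2 * Real.pi * Complex.I : ℂ) ≠ 0 := Complex.two_pi_I_ne_zero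
  -- the generators over the complex numbers
  set S : Set (Form (fun _ : Unit => A) (fun _ => n) (2 * k)) :=
    {ω | ∃ (p q : ℕ) (b : Fin p → (H1 (fun _ : Unit => A) (fun _ => n) →ₗ[ℂ]
        H1 (fun _ : Unit => A) (fun _ => n) →ₗ[ℂ] ℂ))
      (D : Fin q → MultilinearMap ℂ (fun _ : Fin 4 => H1 (fun _ : Unit => A) (fun _ => n)) ℂ)
      (ε : Idx (Fin p) (Fin q) ≃ Fin (2 * k)),
      (∀ a, b a ∈ GW (κ := fun _ : Unit => Fin A.g ⊕ Fin A.g) (fun _ => n) (fun _ => pData A)) ∧
      (∀ c, D c ∈ GQ A n J) ∧ ω = mixA b D ε} with hS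
  have h1 : α ∈ Submodule.span ℂ S := by
    refine Submodule.span_le.mpr ?_ (mem_span_mixA α h)
    rintro ω ⟨p, q, b, D, ε, hb, hD, rfl⟩
    have h2 := mixA_mem_span b D ε
      (GW (κ := fun _ : Unit => Fin A.g ⊕ Fin A.g) (fun _ => n) (fun _ => pData A)) (GQ A n J)
      (fun a => inv_mem_GW (κ := fun _ : Unit => Fin A.g ⊕ Fin A.g) (fun _ => n)
        (fun _ => pData A) M hϖ
        (fun v hv => hBM v fun r i m => (mem_pData_Q _ _).mp (hv r i m)) hAM _ (hb a))
      (fun c => by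
        obtain ⟨m, w, hbal, hDw⟩ := hD c
        exact asym_mem A n J hw _ m w hbal hDw)
    refine Submodule.span_mono ?_ h2
    rintro ω ⟨b', D', hb', hD', rfl⟩
    exact ⟨p, q, b', D', ε, hb', hD', rfl⟩
  -- rational descent
  have h3 : α ∈ Submodule.span ℚ S := by
    refine rational_descent (FBP (κ := fun _ : Unit => Fin A.g ⊕ Fin A.g) (fun _ => n)
      (fun _ => pData A)) ((2 * Real.pi * Complex.I) ^ k) (pow_ne_zero _ hϖ) _ ?_ α
      (fun s => hB _ (fun r => Pool.Agent.Helper28.isBetti_FBP (fun _ : Unit => A) (fun _ => n) _)) h1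
    rintro ω ⟨p, q, b, D, ε, hb, hD, rfl⟩ s
    set v : Fin (2 * k) → H1 (fun _ : Unit => A) (fun _ => n) := fun r =>
      FBP (κ := fun _ : Unit => Fin A.g ⊕ Fin A.g) (fun _ => n) (fun _ => pData A) (s r) with hv
    have hvB : ∀ r, IsBetti (fun _ : Unit => A) (fun _ => n) (v r) := fun r =>
      Pool.Agent.Helper28.isBetti_FBP (fun _ : Unit => A) (fun _ => n) _
    have hb1 : ∀ (π : Equiv.Perm (Idx (Fin p) (Fin q))) (a : Fin p), ∃ t : ℚ,
        b a (v (ε (π (.inl (a, 0))))) (v (ε (π (.inl (a, 1))))) = 2 * Real.pi * Complex.I * t := by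
      intro π a
      obtain ⟨i, g, hg, hba⟩ := hb a
      rw [hba, LinearMap.compl₁₂_apply]
      have hg' := isHom_of_drbW A n g hg
      exact polForm_rat _ _ _ ((isBetti_iff _ _).mp (hg'.betti _ (hvB _)))
        ((isBetti_iff _ _).mp (hg'.betti _ (hvB _)))
    have hD1 : ∀ (π : Equiv.Perm (Idx (Fin p) (Fin q))) (c : Fin q), ∃ t : ℚ,
        D c (fun j => v (ε (π (.inr (c, j))))) = (2 * Real.pi * Complex.I) ^ 2 * t := by
      intro π c
      obtain ⟨g, w, hg, hwG, hDc⟩ := hD c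
      rw [hDc]
      exact hwG.2.1 _ fun r => (isHom_of_drbW A n g hg).betti _ (hvB _)
    choose x hx using hb1
    choose y hy using hD1
    refine ⟨∑ π : Equiv.Perm (Idx (Fin p) (Fin q)), ((Equiv.Perm.sign π : ℤ) : ℚ) *
      ((∏ a, x π a) * ∏ c, y π c), ?_⟩
    rw [mixA_apply]
    push_cast
    rw [Finset.mul_sum]
    refine Finset.sum_congr rfl fun π _ => ?_
    have hz : ∀ (m : ℕ) (z : ℂ) (x : Fin m → ℂ), ∏ a, z * x a = z ^ m * ∏ a, x a := by
      intro m z x
      rw [Finset.prod_mul_distrib, Finset.prod_const, Finset.card_univ, Fintype.card_fin]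
    rw [Finset.prod_congr rfl fun a _ => hx π a, Finset.prod_congr rfl fun c _ => hy π c, hz, hz]
    have h4 : (2 * Real.pi * Complex.I : ℂ) ^ k =
        (2 * Real.pi * Complex.I) ^ p * ((2 * Real.pi * Complex.I) ^ 2) ^ q := by
      rw [← pow_mul, ← pow_add, card_slots ε]
    rw [h4]
    ring
  -- unfolding
  rw [Submodule.mem_span_set'] at h3
  obtain ⟨N, c, ω, hω⟩ := h3
  have h5 := fun j => (ω j).2
  choose p q b D ε hb hD hωj using h5
  choose i h' hh' hbh using hb
  choose g w hg hwG hDg using hD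
  refine ⟨N, c, p, q, ε, fun j a => h' j a, fun j a => g j a, w,
    fun j a => isHom_of_drbW A n _ (hh' j a), fun j a => isHom_of_drbW A n _ (hg j a), hwG,
    fun v => ?_⟩
  rw [← hω, alt_sum_apply]
  refine Finset.sum_congr rfl fun j _ => ?_
  rw [AlternatingMap.smul_apply, Algebra.smul_def, eq_ratCast]
  congr 1
  have h6 : ((ω j : Form (fun _ : Unit => A) (fun _ => n) (2 * k))) v = mixA (b j) (D j) (ε j) v := by
    rw [hωj]
  rw [h6, mixA_eq_mixedProd]
  unfold mixedProd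
  refine Finset.sum_congr rfl fun π _ => ?_
  congr 1
  congr 1
  · refine Finset.prod_congr rfl fun a _ => ?_
    show b j a _ _ = _
    rw [hbh j a]
    rfl
  · refine Finset.prod_congr rfl fun a _ => ?_
    show D j a _ = _
    rw [hDg j a]

end Pool.Agent.Helper11.W4
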